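import Pool.Agent.U672.SF.Main

/-!
# Kimura finite-dimensional objects and Chow-Künneth decompositions
-/

set_option autoImplicit false
set_option linter.unusedSectionVars false

open CategoryTheory MonoidalCategory AlgebraicGeometry Pool.Agent.TH137.DG Pool.Agent.Y116.UV
  Pool.Agent.Z125.UN

namespace Pool.Agent.U672.SF

universe v u w

section kimura

variable {C : Type u} [Category.{v} C] [MonoidalCategory C] [BraidedCategory C] [Preadditive C]

/-- `⋀ⁿ A = 0` for some `n ≥ 1`: the antisymmetrizer of the `n`-th tensor power is zero. -/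
def IsEven (A : C) : Prop :=
  ∃ n : ℕ, 1 ≤ n ∧ ∑ σ : Equiv.Perm (Fin n), (Equiv.Perm.sign σ : ℤ) • permAct A n σ = 0

/-- `Symⁿ A = 0` for some `n ≥ 1`: the symmetrizer of the `n`-th tensor power is zero. -/
def IsOdd (A : C) : Prop := ∃ n : ℕ, 1 ≤ n ∧ ∑ σ : Equiv.Perm (Fin n), permAct A n σ = 0

/-- `A` is Kimura finite-dimensional: it is the direct sum of an evenly finite-dimensional object `P` and
an oddly finite-dimensional object `Q`. -/
def IsKimura (A : C) : Prop :=
  ∃ (P Q : C) (i : P ⟶ A) (j : Q ⟶ A) (p : A ⟶ P) (q : A ⟶ Q), IsEven P ∧ IsOdd Q ∧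
    i ≫ p = 𝟙 P ∧ j ≫ q = 𝟙 Q ∧ i ≫ q = 0 ∧ j ≫ p = 0 ∧ p ≫ i + q ≫ j = 𝟙 A

end kimura

variable {k : Type} [Field k] {C : Type u} [Category.{v} C] [MonoidalCategory C]
  [SymmetricCategory C] [Preadditive C] [Linear ℚ C] [Limits.HasZeroObject C] [HasShift C ℤ]
  [∀ n : ℤ, (shiftFunctor C n).Additive] [Pretriangulated C] {D : Motives k C}
  {F : Type} [Field F]

/-- The known properties of the Kimura finite-dimensional objects: they are stable under direct sums and
direct factors (`factor`: under direct factors of sums), tensor products and Tate twists; and (the nilpotence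
theorem of Kimura) an endomorphism of a Kimura finite-dimensional object which is zero in the
realization is nilpotent. -/
structure KimuraFacts (S : Realization.{v, u, w} D F) : Prop where
  factor : ∀ (A B T : C) (i₁ : A ⟶ T) (i₂ : B ⟶ T) (p₁ : T ⟶ A) (p₂ : T ⟶ B),
    p₁ ≫ i₁ + p₂ ≫ i₂ = 𝟙 T → IsKimura A → IsKimura B → IsKimura T
  tensor : ∀ A B : C, IsKimura A → IsKimura B → IsKimura (A ⊗ B)
  twist : ∀ A : C, IsKimura (D.L ⊗ A) ↔ IsKimura A
  nilpotent : ∀ (A : C) (f : End A), IsKimura A → (∀ n : ℤ, (S.H n).map f = 0) → IsNilpotent f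

/-- A Chow-Künneth decomposition of the motive `A`: mutually orthogonal idempotent endomorphisms `π i` with
sum `1`, such that `π i` acts on the realization `H i` as the identity and on `H n` as zero for
`n ≠ i`; and `π i = 0` if `H i = 0`. -/
def ChowKunneth (S : Realization.{v, u, w} D F) (A : C) : Prop :=
  ∃ (π : ℤ → End A) (T : Finset ℤ), (∀ i, π i * π i = π i) ∧ (∀ i j, i ≠ j → π i * π j = 0) ∧
    ∑ i ∈ T, π i = 1 ∧ (∀ i, i ∉ T → π i = 0) ∧
    (∀ i, (∀ x : (S.H i).obj A, x = 0) → π i = 0) ∧
    ∀ i n : ℤ, (n = i → (S.H n).map (π i) = 𝟙 _) ∧ (n ≠ i → (S.H n).map (π i) = 0)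

variable {S : Realization.{v, u, w} D F} {A : C}

/-- the realization of the endomorphisms -/
def real (S : Realization.{v, u, w} D F) (A : C) : End A →+* ∀ n : ℤ, End ((S.H n).obj A) where
  toFun f n := (S.H n).map f
  map_one' := funext fun n => (S.H n).map_id A
  map_mul' f g := funext fun n => (S.H n).map_comp g f
  map_zero' := funext fun n => by
    have := S.additive n
    exact (S.H n).map_zero A A
  map_add' f g := funext fun n => by
    have := S.additive n
    exact (S.H n).map_add

theorem ck_of_nil (h : AllProjectors S A)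
    (hn : ∀ f : End A, (∀ n : ℤ, (S.H n).map f = 0) → IsNilpotent f) : ChowKunneth S A := by
  classical
  obtain ⟨b, hb⟩ := S.bounded A
  let T : Finset ℤ := (Finset.Icc (-(b : ℤ)) b).filter fun n => ∃ x : (S.H n).obj A, x ≠ 0
  have hT : ∀ n, n ∉ T → ∀ x : (S.H n).obj A, x = 0 := by
    intro n hn x
    by_contra hx
    refine hn (Finset.mem_filter.mpr ⟨Finset.mem_Icc.mpr ?_, x, hx⟩)
    by_contra hc
    exact hx (hb n (by omega) x)
  have hsub : ∀ n, n ∉ T → ∀ f g : End ((S.H n).obj A), f = g := by
    intro n hn f g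
    apply ModuleCat.hom_ext
    ext x
    rw [hT n hn x, map_zero, map_zero]
  let e : T → ∀ n : ℤ, End ((S.H n).obj A) := fun i n => if n = i then 1 else 0
  have he : CompleteOrthogonalIdempotents e := by
    refine { idem := fun i => ?_, ortho := fun i j hij => ?_, complete := ?_ }
    · ext1 n
      by_cases h : n = i <;> simp [e, h]
    · funext n
      by_cases h : n = i
      · have h2 : n ≠ j := fun h2 => hij (Subtype.ext (h.symm.trans h2))
        simp only [e, Pi.mul_apply, Pi.zero_apply, if_neg h2, mul_zero]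
      · simp only [e, Pi.mul_apply, Pi.zero_apply, if_neg h, zero_mul]
    · funext n
      by_cases hn : n ∈ T
      · rw [Finset.sum_apply, Finset.sum_eq_single ⟨n, hn⟩]
        · simp [e]
        · intro i _ hi
          have : n ≠ i := fun h => hi (Subtype.ext h.symm)
          simp [e, this]
        · intro h
          exact absurd (Finset.mem_univ _) h
      · exact hsub n hn _ _
  have hr : ∀ i, e i ∈ (real S A).range := by
    intro i
    obtain ⟨p, hp⟩ := h i
    refine ⟨p, funext fun n => ?_⟩
    by_cases hn : n = i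
    · have := (hp n).1 hn
      simp only [e, if_pos hn]
      exact this
    · have := (hp n).2 hn
      simp only [e, if_neg hn]
      exact this
  obtain ⟨e', h1, h2⟩ := CompleteOrthogonalIdempotents.lift_of_isNilpotent_ker (real S A)
    (fun f hf => hn f fun n => congrFun hf n) he hr
  have h3 : ∀ (i : T) (n : ℤ), (S.H n).map (e' i) = e i n := fun i n =>
    congrFun (congrFun h2 i) n
  refine ⟨fun i => if h : i ∈ T then e' ⟨i, h⟩ else 0, T, fun i => ?_, fun i j hij => ?_, ?_,
    fun i hi => dif_neg hi, fun i hi => ?_, fun i n => ⟨?_, fun hn => ?_⟩⟩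
  · by_cases h : i ∈ T
    · simp only [dif_pos h]
      exact h1.idem _
    · simp only [dif_neg h, mul_zero]
  · by_cases h : i ∈ T
    · by_cases h' : j ∈ T
      · simp only [dif_pos h, dif_pos h']
        exact h1.ortho fun h => hij (congrArg Subtype.val h)
      · simp only [dif_neg h', mul_zero]
    · simp only [dif_neg h, zero_mul]
  · rw [← h1.complete, ← Finset.sum_coe_sort]
    refine Finset.sum_congr rfl fun i _ => ?_
    rw [dif_pos i.2]
  · refine dif_neg fun h => ?_
    obtain ⟨x, hx⟩ := (Finset.mem_filter.mp h).2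
    exact hx (hi x)
  · rintro rfl
    by_cases hn : n ∈ T
    · simp only [dif_pos hn, h3, e, if_true]
      rfl
    · exact hsub n hn _ _
  · by_cases h : i ∈ T
    · simp only [dif_pos h, h3, e, if_neg hn]
    · have := S.additive n
      simp only [dif_neg h]
      exact (S.H n).map_zero A A

theorem pure_kimura (hK : KimuraFacts S) {Y : Sch k → Prop} (hY : ∀ X, Y X → IsKimura (D.M X))
    (h : Pure D Y A) : IsKimura A := by
  induction h with
  | gen X hX => exact hY X hX
  | factor A B T i₁ i₂ p₁ p₂ h _ _ h1 h2 => exact hK.factor A B T i₁ i₂ p₁ p₂ h h1 h2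
  | tensor A B _ _ h1 h2 => exact hK.tensor A B h1 h2
  | twist A _ h1 => exact (hK.twist A).mpr h1
  | untwist A _ h1 => exact (hK.twist A).mp h1

end Pool.Agent.U672.SF
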