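import Pool.Agent.U672.SF.Defs
import Pool.Agent.U672.AB.Main

/-!
# Closure properties
-/

set_option autoImplicit false
set_option linter.unusedSectionVars false

open CategoryTheory MonoidalCategory AlgebraicGeometry MvPolynomial Pool.Agent.TH137.DG
  Pool.Agent.Y116.UV Pool.Agent.Z125.UN Pool.Agent.U672.ST Pool.Agent.U672.TC Pool.Agent.U672.AB
  Pool.Agent.U672.MW Pool.Agent.U738.BN Pretriangulated

namespace Pool.Agent.U672.SF

universe v u w

variable {k : Type} [Field k] {C : Type u} [Category.{v} C] [MonoidalCategory C]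
  [SymmetricCategory C] [Preadditive C] [Linear ℚ C] [Limits.HasZeroObject C] [HasShift C ℤ]
  [∀ n : ℤ, (shiftFunctor C n).Additive] [Pretriangulated C] {D : Motives k C} {N : ℕ}
  {Y : Sch k → Prop}

section dev

variable (hD : MotiveFacts D)

lemma gen_dim (X : Sch k) (hX : FT True X) (hd : topologicalKrullDim X.left ≤ N) :
    Thick D (Generators D N Y) (D.Mc X) :=
  Thick.gen _ ⟨X, Or.inl ⟨hX, hd⟩, rfl⟩

lemma gen_aff (A : Type) [CommRing A] [Algebra k A] [Algebra.FiniteType k A]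
    (hA : ringKrullDim A ≤ N) : Thick D (Generators D N Y) (D.Mc (aff k A)) :=
  gen_dim _ (ft_aff True) (by rw [topDim_aff]; exact hA)

include hD

theorem bnd_s : Bnd True fun X : Sch k => Thick D (Generators D N Y) (D.Mc X) where
  iso h e := Thick.iso (hD.iso h e)
  total i j h ht hZ hU := by
    obtain ⟨a, b, d, hT⟩ := hD.localization i j h ht
    exact Thick.cone _ (inv_rot_of_distTriang _ hT) (Thick.shift _ (-1) hU) hZ
  opened i j h ht hZ hX := by
    obtain ⟨a, b, d, hT⟩ := hD.localization i j h ht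
    exact Thick.cone _ hT hZ hX
  closed i j h ht hX hU := by
    obtain ⟨a, b, d, hT⟩ := hD.localization i j h ht
    exact Thick.unshift _ (Thick.cone _ (rot_of_distTriang _ hT) hX hU)
  space n := by
    have h1 : Thick D (Generators D N Y) (D.Mc (aff k k)) := gen_aff k (by
      rw [ringKrullDim_eq_zero_of_field]
      exact_mod_cast Nat.zero_le N)
    have h2 := hD.bundle k (n + 1) (f1 k n) (aff k k) (𝟙 _) inferInstance (range_id n)
    have h3 : Thick D (Generators D N Y) (D.Mc (aff k (Jou (f1 k n)))) :=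
      (Thick.iso_iff h2).mpr ((Thick.tw_iff _ _).mpr h1)
    exact Thick.iso (hD.iso (ft_aff True) ⟨(affIso (jouOne k n)).symm⟩) h3
  jouanolou A _ _ _ m f U j hj hr h :=
    (Thick.tw_iff _ _).mp ((Thick.iso_iff (hD.bundle A m f U j hj hr)).mp h)
  torus A _ _ _ h := by
    obtain ⟨s, r, hs⟩ := hD.torus A
    exact Thick.untwist _ (Thick.factor _ _ s r hs h)
  bundle A _ _ _ m f U j hj hr h :=
    (Thick.iso_iff (hD.bundle A m f U j hj hr)).mpr ((Thick.tw_iff _ _).mpr h)

theorem bndt_s : BndT fun X : Sch k => Thick D (Generators D N Y) (D.Mc X) where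
  toBnd := bnd_s hD
  prod A B _ _ _ _ _ _ hA hB :=
    (Thick.iso_iff (hD.kuenneth A B)).mpr (Thick.tensor _ _ hA hB)
  transfer A B _ _ _ _ _ _ _ d b h := by
    obtain ⟨s, r, hs⟩ := hD.transfer A B d b
    exact Thick.factor _ _ s r hs h

theorem posN_s : PosN True (fun X : Sch k => Thick D (Generators D N Y) (D.Mc X)) N := by
  have h := pos_of_bnd (bndt_s (N := N) (Y := Y) hD).toBnd fun A _ _ _ => by
    refine gen_aff A ?_
    refine (dim_integral (A := k) A).trans ?_
    rw [ringKrullDim_eq_zero_of_field]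
    exact_mod_cast Nat.zero_le N
  exact { toPos := h, dim := fun A _ _ _ hA => gen_aff A hA }

theorem constructed_thick (hN : 1 ≤ N) (X : Sch k) (hX : Constructed N Y X) :
    Thick D (Generators D N Y) (D.Mc X) := by
  have hP := bndt_s (N := N) (Y := Y) hD
  have hp : PosN True (fun X : Sch k => Thick D (Generators D N Y) (D.Mc X)) N := posN_s hD
  have h2 : Plane fun X : Sch k => Thick D (Generators D N Y) (D.Mc X) := plane_of hp.dim hP hN
  induction hX with
  | system σ q r G H he hI => exact main_P hP h2 hp G H hI he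
  | sum n σ f A g hf hA => exact elem_sol hp.dim hP hN hf hA g
  | small X hX hd => exact gen_dim X hX hd
  | given X hX => exact Thick.gen _ ⟨X, Or.inr hX, rfl⟩
  | iso X Y hX e _ h => exact hP.iso hX e h
  | total i j hX ht _ _ h1 h2 => exact hP.total i j hX ht h1 h2
  | opened i j hX ht _ _ h1 h2 => exact hP.opened i j hX ht h1 h2
  | closed i j hX ht _ _ h1 h2 => exact hP.closed i j hX ht h1 h2
  | product A B _ _ h1 h2 => exact hP.prod A B h1 h2
  | covering A B d b _ h => exact hP.transfer A B d b h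

theorem constructed_pure (hN : 1 ≤ N) (hY : ∀ X, Y X → SmoothProper X)
    (hs : ∀ X, SmoothProper X → topologicalKrullDim X.left ≤ N → Y X) (X : Sch k)
    (hX : Constructed N Y X) (hp : SmoothProper X) : Pure D Y (D.M X) :=
  hD.chow N Y hY hs X hp (Thick.iso ((hD.proper X hp.1 hp.2.2).map Iso.symm)
    (constructed_thick hD hN X hX))

end dev

section alg

variable {F : Type} [Field F] (S : Realization.{v, u, w} D F)

/-- an endomorphism acting by `c n` in degree `n` -/
def Alg (c : ℤ → ℚ) (A : C) : Prop :=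
  ∃ s : A ⟶ A, ∀ (n : ℤ) (x : (S.H n).obj A), ((S.H n).map s).hom x = ((c n : ℚ) : F) • x

variable {S} {A B : C}

lemma map_add_apply (n : ℤ) (f g : A ⟶ B) (x : (S.H n).obj A) :
    ((S.H n).map (f + g)).hom x = ((S.H n).map f).hom x + ((S.H n).map g).hom x := by
  have := S.additive n
  rw [Functor.map_add]
  rfl

lemma map_zero_apply (n : ℤ) (x : (S.H n).obj A) :
    ((S.H n).map (0 : A ⟶ B)).hom x = 0 := by
  have := S.additive n
  rw [Functor.map_zero]
  rfl

variable [CharZero F]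

lemma Alg.mul {c d : ℤ → ℚ} (hc : Alg S c A) (hd : Alg S d A) : Alg S (fun n => c n * d n) A := by
  obtain ⟨s, hs⟩ := hc
  obtain ⟨t, ht⟩ := hd
  refine ⟨s ≫ t, fun n x => ?_⟩
  rw [Functor.map_comp, ModuleCat.hom_comp, LinearMap.comp_apply, hs, map_smul, ht, smul_smul]
  push_cast
  rfl

lemma Alg.one : Alg S (fun _ => 1) A := by
  refine ⟨𝟙 A, fun n x => ?_⟩
  rw [CategoryTheory.Functor.map_id]
  simp

lemma map_smul_apply (n : ℤ) (q : ℚ) (f : A ⟶ B) (x : (S.H n).obj A) :
    ((S.H n).map (q • f)).hom x = (q : F) • ((S.H n).map f).hom x := by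
  have := S.additive n
  have h : (S.H n).map (q • f) = (q : F) • (S.H n).map f := by
    have h1 := map_ratCast_smul ((S.H n).mapAddHom (X := A) (Y := B)) ℚ F q f
    simpa using h1
  rw [h]
  rfl

lemma Alg.lin {c d : ℤ → ℚ} (a b : ℚ) (hc : Alg S c A) (hd : Alg S d A) :
    Alg S (fun n => a * c n + b * d n) A := by
  obtain ⟨s, hs⟩ := hc
  obtain ⟨t, ht⟩ := hd
  refine ⟨a • s + b • t, fun n x => ?_⟩
  rw [map_add_apply, map_smul_apply, map_smul_apply, hs, ht, smul_smul, smul_smul, ← add_smul]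
  push_cast
  rfl

lemma Alg.congr {c d : ℤ → ℚ} (hc : Alg S c A)
    (h : ∀ n (x : (S.H n).obj A), x ≠ 0 → c n = d n) : Alg S d A := by
  obtain ⟨s, hs⟩ := hc
  refine ⟨s, fun n x => ?_⟩
  rw [hs]
  by_cases hx : x = 0
  · rw [hx, smul_zero, smul_zero]
  · rw [h n x hx]

lemma Alg.factor {c : ℤ → ℚ} {T : C} (i₁ : A ⟶ T) (i₂ : B ⟶ T) (p₁ : T ⟶ A) (p₂ : T ⟶ B)
    (h : p₁ ≫ i₁ + p₂ ≫ i₂ = 𝟙 T) (hA : Alg S c A) (hB : Alg S c B) : Alg S c T := by
  obtain ⟨s, hs⟩ := hA
  obtain ⟨t, ht⟩ := hB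
  refine ⟨p₁ ≫ s ≫ i₁ + p₂ ≫ t ≫ i₂, fun n x => ?_⟩
  have e : ((S.H n).map (p₁ ≫ i₁ + p₂ ≫ i₂)).hom x = x := by
    rw [h, CategoryTheory.Functor.map_id]
    rfl
  rw [map_add_apply] at e ⊢
  rw [Functor.map_comp, Functor.map_comp, ModuleCat.hom_comp, ModuleCat.hom_comp,
    LinearMap.comp_apply, LinearMap.comp_apply] at e
  rw [Functor.map_comp, Functor.map_comp, Functor.map_comp, Functor.map_comp, ModuleCat.hom_comp,
    ModuleCat.hom_comp, ModuleCat.hom_comp, ModuleCat.hom_comp,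
    LinearMap.comp_apply, LinearMap.comp_apply, LinearMap.comp_apply, LinearMap.comp_apply, hs, ht,
    map_smul, map_smul, ← smul_add, e]

lemma Alg.tensor {c : ℤ → ℚ} (hc : ∀ i j, c (i + j) = c i * c j) (hA : Alg S c A)
    (hB : Alg S c B) : Alg S c (A ⊗ B) := by
  obtain ⟨s, hs⟩ := hA
  obtain ⟨t, ht⟩ := hB
  refine ⟨s ⊗ₘ t, fun n x => ?_⟩
  have hx : x ∈ Submodule.span F {z : (S.H n).obj (A ⊗ B) |
      ∃ (i j : ℤ) (h : i + j = n) (a : (S.H i).obj A) (b : (S.H j).obj B),
        S.mul A B i j n h a b = z} := by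
    rw [S.mul_span A B n]
    trivial
  induction hx using Submodule.span_induction with
  | mem z hz =>
    obtain ⟨i, j, h, a, b, rfl⟩ := hz
    have h1 : (c n : F) = (c j : F) * (c i : F) := by
      rw [← h, hc]
      push_cast
      rw [mul_comm]
    rw [S.mul_map, hs, ht, map_smul, map_smul, LinearMap.smul_apply, smul_smul, h1]
  | zero => rw [map_zero, smul_zero]
  | add y z _ _ hy hz => rw [map_add, hy, hz, smul_add]
  | smul a y _ hy => rw [map_smul, hy, smul_comm]

lemma Alg.tw {c : ℤ → ℚ} (hc : ∀ i j, c (i + j) = c i * c j) (hA : Alg S c A) :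
    Alg S c (D.L ⊗ A) := by
  obtain ⟨s, hs⟩ := hA
  refine ⟨c 2 • D.L ◁ s, fun n x => ?_⟩
  obtain ⟨e⟩ := S.tate n
  have h1 : ((S.H (n - 2)).map s).hom (((e.hom.app A)).hom x) =
      ((c (n - 2) : ℚ) : F) • ((e.hom.app A)).hom x := hs _ _
  have h2 : (e.hom.app A).hom (((S.H n).map (D.L ◁ s)).hom x) =
      ((S.H (n - 2)).map s).hom ((e.hom.app A).hom x) := by
    have h3 := congrArg ModuleCat.Hom.hom (e.hom.naturality s)
    rw [ModuleCat.hom_comp, ModuleCat.hom_comp] at h3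
    exact LinearMap.congr_fun h3 x
  have h4 : ∀ y z : (S.H n).obj (D.L ⊗ A), (e.hom.app A).hom y = (e.hom.app A).hom z → y = z := by
    intro y z h
    have h5 := congrArg ModuleCat.Hom.hom (e.hom_inv_id_app A)
    rw [ModuleCat.hom_comp] at h5
    have h6 : ∀ y : (S.H n).obj (D.L ⊗ A), (e.inv.app A).hom ((e.hom.app A).hom y) = y :=
      fun y => LinearMap.congr_fun h5 y
    rw [← h6 y, h, h6]
  apply h4
  rw [map_smul_apply, map_smul, h2, h1, map_smul, smul_smul]
  congr 1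
  rw [← Rat.cast_mul, ← hc]
  congr 2
  ring

lemma Alg.untw {c : ℤ → ℚ} (hc : ∀ i j, c (i + j) = c i * c j) (h0 : c 2 ≠ 0)
    (hcan : ∀ (A B : C) (f : D.L ⊗ A ⟶ D.L ⊗ B), ∃ g : A ⟶ B, D.L ◁ g = f)
    (hA : Alg S c (D.L ⊗ A)) : Alg S c A := by
  obtain ⟨t, ht⟩ := hA
  obtain ⟨s, rfl⟩ := hcan _ _ t
  refine ⟨(c 2)⁻¹ • s, fun m y => ?_⟩
  obtain ⟨n, rfl⟩ : ∃ n : ℤ, m = n - 2 := ⟨m + 2, by ring⟩
  obtain ⟨e⟩ := S.tate n
  have h5 := congrArg ModuleCat.Hom.hom (e.inv_hom_id_app A)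
  rw [ModuleCat.hom_comp] at h5
  have h6 : (e.hom.app A).hom ((e.inv.app A).hom y) = y := LinearMap.congr_fun h5 y
  obtain ⟨x, rfl⟩ : ∃ x : (S.H n).obj (D.L ⊗ A), (e.hom.app A).hom x = y := ⟨_, h6⟩
  have h2 : (e.hom.app A).hom (((S.H n).map (D.L ◁ s)).hom x) =
      ((S.H (n - 2)).map s).hom ((e.hom.app A).hom x) := by
    have h3 := congrArg ModuleCat.Hom.hom (e.hom.naturality s)
    rw [ModuleCat.hom_comp, ModuleCat.hom_comp] at h3
    exact LinearMap.congr_fun h3 x
  rw [map_smul_apply]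
  change ((((c 2)⁻¹ : ℚ)) : F) • ((S.H (n - 2)).map s).hom ((e.hom.app A).hom x) = _
  rw [← h2, ht, map_smul, smul_smul]
  congr 1
  rw [← Rat.cast_mul]
  congr 1
  have h7 : c n = c (n - 2) * c 2 := by
    rw [← hc]
    congr 1
    ring
  rw [h7]
  field_simp

theorem pure_alg {c : ℤ → ℚ} (hc : ∀ i j, c (i + j) = c i * c j) (h0 : c 2 ≠ 0)
    (hcan : ∀ (A B : C) (f : D.L ⊗ A ⟶ D.L ⊗ B), ∃ g : A ⟶ B, D.L ◁ g = f)
    (hY : ∀ X, Y X → Alg S c (D.M X)) (hA : Pure D Y A) : Alg S c A := by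
  induction hA with
  | gen X hX => exact hY X hX
  | factor A B T i₁ i₂ p₁ p₂ h _ _ h1 h2 => exact Alg.factor i₁ i₂ p₁ p₂ h h1 h2
  | tensor A B _ _ h1 h2 => exact Alg.tensor hc h1 h2
  | twist A _ h1 => exact Alg.tw hc h1
  | untwist A _ h1 => exact Alg.untw hc h0 hcan h1

/-- the sign conjecture in terms of the sign operator -/
lemma cplus_iff : CPlus S A ↔ Alg S (fun n => (-1) ^ n) A := by
  constructor
  · rintro ⟨p, hp⟩
    have h : Alg S (fun n => if Even n then 1 else 0) A := by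
      refine ⟨p, fun n x => ?_⟩
      by_cases hn : Even n
      · rw [(hp n).1 hn]
        simp [hn]
      · rw [(hp n).2 (Int.not_even_iff_odd.mp hn)]
        simp [hn]
    refine (Alg.lin 2 (-1) h Alg.one).congr fun n _ _ => ?_
    by_cases hn : Even n
    · simp only [hn, if_true, hn.neg_one_zpow]
      norm_num
    · simp only [hn, if_false, (Int.not_even_iff_odd.mp hn).neg_one_zpow]
      norm_num
  · intro h
    obtain ⟨p, hp⟩ := Alg.lin (1 / 2) (1 / 2) h Alg.one
    refine ⟨p, fun n => ⟨fun hn => ?_, fun hn => ?_⟩⟩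
    · ext x
      rw [hp]
      simp only [hn.neg_one_zpow]
      norm_num
    · ext x
      rw [hp]
      simp only [hn.neg_one_zpow]
      norm_num

/-- interpolation -/
lemma alg_sep {c : ℤ → ℚ} (hc : Alg S c A) (i : ℤ) (T : Finset ℤ) (hT : ∀ m ∈ T, c m ≠ c i) :
    ∃ d : ℤ → ℚ, Alg S d A ∧ d i = 1 ∧ ∀ m ∈ T, d m = 0 := by
  classical
  induction T using Finset.induction_on with
  | empty => exact ⟨fun _ => 1, Alg.one, rfl, by simp⟩
  | insert m T _ ih =>
    obtain ⟨d, h1, h2, h3⟩ := ih fun m hm => hT m (Finset.mem_insert_of_mem hm)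
    have h4 : c m ≠ c i := hT m (Finset.mem_insert_self _ _)
    have h5 : c i - c m ≠ 0 := sub_ne_zero.mpr h4.symm
    refine ⟨_, h1.mul (Alg.lin (c i - c m)⁻¹ (-(c m * (c i - c m)⁻¹)) hc Alg.one), ?_, ?_⟩
    · simp only [h2]
      field_simp
      ring
    · intro m' hm'
      rcases Finset.mem_insert.mp hm' with rfl | h
      · have : (c i - c m')⁻¹ * c m' + -(c m' * (c i - c m')⁻¹) * 1 = 0 := by ring
        rw [this, mul_zero]
      · simp only [h3 m' h, zero_mul]

/-- finite sums -/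
lemma alg_sum (T : Finset ℤ) (d : ℤ → ℤ → ℚ) (a : ℤ → ℚ) (h : ∀ i ∈ T, Alg S (d i) A) :
    Alg S (fun n => ∑ i ∈ T, a i * d i n) A := by
  classical
  induction T using Finset.induction_on with
  | empty =>
    refine (Alg.lin 0 0 (Alg.one (S := S) (A := A)) Alg.one).congr fun n _ _ => ?_
    simp
  | insert m T hm ih =>
    have h1 := Alg.lin (a m) 1 (h m (Finset.mem_insert_self _ _))
      (ih fun i hi => h i (Finset.mem_insert_of_mem hi))
    refine h1.congr fun n _ _ => ?_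
    rw [Finset.sum_insert hm, one_mul]

lemma bdd (S : Realization.{v, u, w} D F) (A : C) :
    ∃ T : Finset ℤ, ∀ n (x : (S.H n).obj A), x ≠ 0 → n ∈ T := by
  obtain ⟨b, hb⟩ := S.bounded A
  refine ⟨Finset.Icc (-(b : ℤ)) b, fun n x hx => ?_⟩
  by_contra hn
  refine hx (hb n ?_ x)
  rw [Finset.mem_Icc] at hn
  omega

/-- the Künneth conjecture in terms of one operator -/
lemma all_iff : AllProjectors S A ↔ Alg S (fun n => (2 : ℚ) ^ n) A := by
  classical
  obtain ⟨T, hT⟩ := bdd S A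
  constructor
  · intro h
    have h1 : ∀ i ∈ T, Alg S (fun n => if n = i then 1 else 0) A := by
      intro i _
      obtain ⟨p, hp⟩ := h i
      refine ⟨p, fun n x => ?_⟩
      by_cases hn : n = i
      · rw [(hp n).1 hn]
        simp [hn]
      · rw [(hp n).2 hn]
        simp [hn]
    refine (alg_sum T _ (fun i => (2 : ℚ) ^ i) h1).congr fun n x hx => ?_
    have hn := hT n x hx
    simp [hn]
  · intro h i
    obtain ⟨d, h1, h2, h3⟩ := alg_sep h i (T.erase i) fun m hm => by
      intro he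
      exact Finset.ne_of_mem_erase hm (zpow_right_injective₀ (by norm_num) (by norm_num) he)
    obtain ⟨p, hp⟩ := h1
    refine ⟨p, fun n => ⟨?_, fun hn => ?_⟩⟩
    · rintro rfl
      ext x
      rw [hp, h2]
      norm_num
    · ext x
      rw [hp]
      by_cases hx : x = 0
      · rw [hx, smul_zero]
        simp
      · rw [h3 n (Finset.mem_erase.mpr ⟨hn, hT n x hx⟩)]
        simp

theorem pure_cplus (hD : MotiveFacts D) (hY : ∀ X, Y X → CPlus S (D.M X)) (hA : Pure D Y A) :
    CPlus S A := by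
  rw [cplus_iff]
  refine pure_alg (fun i j => zpow_add₀ (by norm_num) i j) (by norm_num) hD.cancel
    (fun X hX => cplus_iff.mp (hY X hX)) hA

theorem pure_all (hD : MotiveFacts D) (hY : ∀ X, Y X → AllProjectors S (D.M X))
    (hA : Pure D Y A) : AllProjectors S A := by
  rw [all_iff]
  refine pure_alg (fun i j => zpow_add₀ (by norm_num) i j) (by norm_num) hD.cancel
    (fun X hX => all_iff.mp (hY X hX)) hA

end alg

end Pool.Agent.U672.SF
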