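import Pool.Agent.U672.SF.ConstDefs
import Pool.Agent.U672.SF.Main

/-!
# Schemes and forms defined over a subfield
-/

set_option autoImplicit false
set_option linter.unusedSectionVars false

open CategoryTheory MonoidalCategory AlgebraicGeometry MvPolynomial Pool.Agent.TH137.DG
  Pool.Agent.Y116.UV Pool.Agent.Z125.UN Pool.Agent.U672.ST Pool.Agent.U672.TC Pool.Agent.U672.AB
  Pool.Agent.U672.MW Pool.Agent.U738.BN Pretriangulated TensorProduct

namespace Pool.Agent.U672.SF

section iso

variable {k₀ k : Type} [Field k₀] [Field k] [Algebra k₀ k] {σ : Type} (f : MvPolynomial σ k₀)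

/-- the quotient map over `k` -/
noncomputable def cm : MvPolynomial σ k →ₐ[k] k ⊗[k₀] (MvPolynomial σ k₀ ⧸ Ideal.span {f - C 1}) :=
  aeval fun s => (1 : k) ⊗ₜ[k₀] (Ideal.Quotient.mk (Ideal.span {f - C 1}) (X s))

lemma cm_map (h : MvPolynomial σ k₀) : cm (k := k) f (map (algebraMap k₀ k) h) =
    (1 : k) ⊗ₜ[k₀] (Ideal.Quotient.mk (Ideal.span {f - C 1}) h) := by
  induction h using MvPolynomial.induction_on with
  | C a =>
    have h1 : Ideal.Quotient.mk (Ideal.span {f - C 1}) (C a) =
        algebraMap k₀ (MvPolynomial σ k₀ ⧸ Ideal.span {f - C 1}) a := rfl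
    have h2 : cm (k := k) f (C (algebraMap k₀ k a)) = algebraMap k _ (algebraMap k₀ k a) :=
      (cm (k := k) f).commutes _
    rw [map_C, h2, h1, Algebra.TensorProduct.algebraMap_apply, Algebra.algebraMap_self_apply,
      Algebra.algebraMap_eq_smul_one, TensorProduct.smul_tmul, Algebra.algebraMap_eq_smul_one]
  | add p q hp hq => rw [map_add, map_add, hp, hq, map_add, TensorProduct.tmul_add]
  | mul_X p s hp =>
    rw [map_mul, map_mul, hp, map_X, map_mul, cm, aeval_X, Algebra.TensorProduct.tmul_mul_tmul, one_mul]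

lemma map_sub_one : map (algebraMap k₀ k) f - C (1 : k) = map (algebraMap k₀ k) (f - C 1) := by
  rw [map_sub, map_C, map_one (algebraMap k₀ k)]

/-- the fibre `f = 1` over `k` is the base change -/
noncomputable def constE : (k ⊗[k₀] (MvPolynomial σ k₀ ⧸ Ideal.span {f - C 1})) ≃ₐ[k]
    Fib (map (algebraMap k₀ k) f) (1 : k) := by
  refine AlgEquiv.ofAlgHom
    (Algebra.TensorProduct.lift (Algebra.ofId k _)
      (Ideal.Quotient.liftₐ (Ideal.span {f - C 1})
        ((Ideal.Quotient.mkₐ k₀ (Ideal.span {map (algebraMap k₀ k) f - C (1 : k)})).comp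
          (MvPolynomial.mapAlgHom (Algebra.ofId k₀ k))) ?_) (fun _ _ => Commute.all _ _))
    (Ideal.Quotient.liftₐ _ (cm f) ?_) ?_ ?_
  · intro a ha
    obtain ⟨b, rfl⟩ := Ideal.mem_span_singleton'.mp ha
    rw [map_mul]
    have h : ((Ideal.Quotient.mkₐ k₀ (Ideal.span {map (algebraMap k₀ k) f - C (1 : k)})).comp
          (MvPolynomial.mapAlgHom (Algebra.ofId k₀ k))) (f - C 1) = 0 := by
      change Ideal.Quotient.mk _ (map (algebraMap k₀ k) (f - C 1)) = 0
      rw [← map_sub_one]
      exact Ideal.Quotient.eq_zero_iff_mem.mpr (Ideal.subset_span (Set.mem_singleton _))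
    rw [h, mul_zero]
  · have h : cm (k := k) f (map (algebraMap k₀ k) f - C 1) = 0 := by
      rw [map_sub_one, cm_map, Ideal.Quotient.eq_zero_iff_mem.mpr
        (Ideal.subset_span (Set.mem_singleton _)), TensorProduct.tmul_zero]
    have hle : Ideal.span {map (algebraMap k₀ k) f - C 1} ≤ RingHom.ker (cm (k := k) f) := by
      rw [Ideal.span_le, Set.singleton_subset_iff]
      exact h
    exact fun a ha => hle ha
  · apply Ideal.Quotient.algHom_ext
    apply MvPolynomial.algHom_ext
    intro s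
    simp only [AlgHom.comp_apply, Ideal.Quotient.mkₐ_eq_mk, Ideal.Quotient.liftₐ_apply,
      Ideal.Quotient.lift_mk, AlgHom.id_apply]
    change (Algebra.TensorProduct.lift _ _ _) (cm (k := k) f (X s)) = _
    rw [cm, aeval_X, Algebra.TensorProduct.lift_tmul,
      map_one (Algebra.ofId k (Fib (map (algebraMap k₀ k) f) (1 : k)))]
    refine (one_mul _).trans ?_
    change Ideal.Quotient.mk _ (map (algebraMap k₀ k) (X s)) = _
    rw [map_X]
  · apply Algebra.TensorProduct.ext
    · ext
    · apply Ideal.Quotient.algHom_ext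
      apply MvPolynomial.algHom_ext
      intro s
      simp only [AlgHom.comp_apply, Ideal.Quotient.mkₐ_eq_mk, AlgHom.restrictScalars_apply,
        Algebra.TensorProduct.includeRight_apply, AlgHom.id_apply]
      rw [Algebra.TensorProduct.lift_tmul,
        map_one (Algebra.ofId k (Fib (map (algebraMap k₀ k) f) (1 : k)))]
      refine (congrArg _ (one_mul _)).trans ?_
      change cm (k := k) f (map (algebraMap k₀ k) (X s)) = _
      rw [cm_map]

end iso

section terms

variable {k₀ k : Type} [Field k₀] [Field k] [Algebra k₀ k] {σ : Type} {P : Sch k → Prop}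

lemma quasi_smul {f : MvPolynomial σ k} (a : k) (h : QuasiHom f) : QuasiHom (C a * f) := by
  obtain ⟨w, d, hd, hf⟩ := h
  have h1 := (isWeightedHomogeneous_C w a).mul hf
  rw [zero_add] at h1
  exact ⟨w, d, hd, h1⟩

lemma good_smul (hP : BndT P) [Finite σ] {f : MvPolynomial σ k} {a : k} (ha : a ≠ 0)
    (h : Good P f) : Good P (C a * f) := by
  intro c
  rw [← fib_iff hP]
  have e : Ideal.span {f - C (a⁻¹ * c)} = Ideal.span {C a * f - C c} := by
    have hu : IsUnit (C (σ := σ) a) := (IsUnit.mk0 a ha).map C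
    rw [← Ideal.span_singleton_mul_left_unit hu, mul_sub, ← C_mul, mul_inv_cancel_left₀ ha]
  exact iso_alg hP.toUni (Ideal.quotientEquivAlgOfEq k e) ((fib_iff hP f _).mpr (h _))

lemma term_good (hP : BndT P) {N : ℕ} (hN : 1 ≤ N) (hd : ∀ (A : Type) [CommRing A] [Algebra k A]
    [Algebra.FiniteType k A], ringKrullDim A ≤ N → P (aff k A))
    (hc : ∀ (A : Type) [CommRing A] [Algebra k₀ A] [Algebra.FiniteType k₀ A],
      P (aff k (k ⊗[k₀] A))) [Finite σ] {f : MvPolynomial σ k} (h : ConstTerm k₀ N f) :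
    QuasiHom f ∧ Good P f := by
  rcases h with h | ⟨a, f₀, ha, hq, rfl⟩
  · exact ⟨elem_quasi h, elem_good hd hP hN h⟩
  · refine ⟨quasi_smul a hq, good_smul hP ha (good_of_milnor hP (plane_of hd hP hN) hq ?_)⟩
    rw [← fib_iff hP]
    exact iso_alg hP.toUni (constE f₀) (hc _)

end terms

section main

universe v u w

variable {k₀ k : Type} [Field k₀] [Field k] [Algebra k₀ k] {C : Type u} [Category.{v} C]
  [MonoidalCategory C] [SymmetricCategory C] [Preadditive C] [Linear ℚ C]
  [Limits.HasZeroObject C] [HasShift C ℤ] [∀ n : ℤ, (shiftFunctor C n).Additive]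
  [Pretriangulated C] {D : Motives k C} {N : ℕ} {Y : Sch k → Prop}

theorem built_thick (hD : MotiveFacts D) (hN : 1 ≤ N) (X : Sch k) (hX : Built k₀ N Y X) :
    Thick D (Generators D N fun X => Y X ∨ Constant k₀ X) (D.Mc X) := by
  have hP := bndt_s (N := N) (Y := fun X => Y X ∨ Constant k₀ X) hD
  have hp : PosN True (fun X : Sch k => Thick D (Generators D N fun X => Y X ∨ Constant k₀ X)
    (D.Mc X)) N := posN_s hD
  have h2 : Plane fun X : Sch k => Thick D (Generators D N fun X => Y X ∨ Constant k₀ X)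
    (D.Mc X) := plane_of hp.dim hP hN
  have hc : ∀ (A : Type) [CommRing A] [Algebra k₀ A] [Algebra.FiniteType k₀ A],
      Thick D (Generators D N fun X => Y X ∨ Constant k₀ X) (D.Mc (aff k (k ⊗[k₀] A))) :=
    fun A _ _ _ => Thick.gen _ ⟨_, Or.inr (Or.inr (Or.inr ⟨A, _, _, inferInstance, rfl⟩)), rfl⟩
  induction hX with
  | system σ q r G H he hI => exact main_P hP h2 hp G H hI he
  | sum n σ f A g hf _ _ h1 h3 =>
    have h4 := good_tot hP h2 n σ f (fun j => (term_good hP hN hp.dim hc (hf j)).1)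
      (fun j => (term_good hP hN hp.dim hc (hf j)).2)
    obtain ⟨u, m, hm, hw⟩ := h4.1.nat
    exact p_sol hP g hm hw h4.2 h1 (h3 m hm)
  | small X hX hd => exact gen_dim X hX hd
  | constant X hX => exact Thick.gen _ ⟨X, Or.inr (Or.inr hX), rfl⟩
  | given X hX => exact Thick.gen _ ⟨X, Or.inr (Or.inl hX), rfl⟩
  | iso X Y hX e _ h => exact hP.iso hX e h
  | total i j hX ht _ _ h1 h2 => exact hP.total i j hX ht h1 h2
  | opened i j hX ht _ _ h1 h2 => exact hP.opened i j hX ht h1 h2
  | closed i j hX ht _ _ h1 h2 => exact hP.closed i j hX ht h1 h2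
  | product A B _ _ h1 h2 => exact hP.prod A B h1 h2
  | covering A B d b _ h => exact hP.transfer A B d b h

theorem built_pure (hD : MotiveFacts D) (hc : ConstantFacts k₀ D) (hN : 1 ≤ N)
    (hY : ∀ X, Y X → SmoothProper X)
    (hs : ∀ X, SmoothProper X → topologicalKrullDim X.left ≤ N → Y X)
    (hk : ∀ X, SmoothProper X → Constant k₀ X → Y X) (X : Sch k)
    (hX : Built k₀ N Y X) (hp : SmoothProper X) : Pure D Y (D.M X) :=
  hc N Y hY hs hk X hp (Thick.iso ((hD.proper X hp.1 hp.2.2).map Iso.symm)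
    (built_thick hD hN X hX))

end main

end Pool.Agent.U672.SF
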