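import Pool.Agent.U672.SF.Defs

/-!
# Schemes and forms defined over a subfield: definitions
-/

set_option autoImplicit false

open CategoryTheory MonoidalCategory AlgebraicGeometry MvPolynomial Pool.Agent.TH137.DG
  Pool.Agent.Y116.UV Pool.Agent.Z125.UN Pool.Agent.U672.ST Pool.Agent.U672.AB Pool.Agent.U672.MW
  TensorProduct

namespace Pool.Agent.U672.SF

universe v u w

/-- The scheme `X` over `k` is the base change of a scheme `X₀` of finite type over the subfield `k₀`
(in the form of a fibre product, or in the form of the spectrum of a tensor product). -/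
def Constant (k₀ : Type) {k : Type} [Field k₀] [Field k] [Algebra k₀ k] (X : Sch k) : Prop :=
  (∃ X₀ : Sch k₀, FT True X₀ ∧
    Nonempty (X ≅ (Over.pullback (Spec.map (CommRingCat.ofHom (algebraMap k₀ k)))).obj X₀)) ∨
  ∃ (A : Type) (_ : CommRing A) (_ : Algebra k₀ A), Algebra.FiniteType k₀ A ∧
    X = aff k (k ⊗[k₀] A)

/-- The terms of the sums: `f` is quasi-homogeneous in at most `N + 1` variables, or a trilinear form with a
small block (`Elem`), or `f = a f₀` for a quasi-homogeneous polynomial `f₀`, in any number of variables,
with coefficients in the subfield `k₀` and a number `a ≠ 0` of `k`. -/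
def ConstTerm (k₀ : Type) {k : Type} [Field k₀] [Field k] [Algebra k₀ k] {σ : Type} (N : ℕ)
    (f : MvPolynomial σ k) : Prop :=
  Elem N f ∨ ∃ (a : k) (f₀ : MvPolynomial σ k₀), a ≠ 0 ∧ QuasiHom (map (algebraMap k₀ k) f₀) ∧
    f = C a * map (algebraMap k₀ k) f₀

/-- The smallest class of schemes over `k` which contains the systems of excess at most `N + 1` with
further equations with independent exponents, the schemes `∑ f_j (x_j) = g (y)` for terms `f_j` as in
`ConstTerm` and a function `g` on `Spec A` such that `g = 0` and the coverings `v ^ m = g` of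
`Spec A` are in the class (for instance `dim A ≤ N`, or `A` and `g` defined over `k₀`), all
schemes of dimension at most `N`, the schemes defined over `k₀` and the schemes in the class `Y`, which
contains with two of the schemes `X`, `Z` (a closed subscheme of `X`), `U` (its complement) also the
third, with two affine schemes their product, and with `Spec B` also `Spec A` if the
`A`-algebra `B` is free of finite positive rank. -/
inductive Built (k₀ : Type) {k : Type} [Field k₀] [Field k] [Algebra k₀ k] (N : ℕ)
    (Y : Sch k → Prop) : Sch k → Prop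
  | system (σ : Type) [Finite σ] (q r : ℕ) (G : Fin q → MvPolynomial σ k)
      (H : Fin r → MvPolynomial σ k) : excessOf G ≤ N + 1 → Independent G H →
      Built k₀ N Y (zeros (Sum.elim G H))
  | sum (n : ℕ) (σ : Fin n → Type) [∀ j, Finite (σ j)] (f : ∀ j, MvPolynomial (σ j) k) (A : Type)
      [CommRing A] [Algebra k A] [Algebra.FiniteType k A] (g : A) : (∀ j, ConstTerm k₀ N (f j)) →
      Built k₀ N Y (aff k (A ⧸ Ideal.span {g})) →
      (∀ m : ℕ, m ≠ 0 → Built k₀ N Y (aff k (AdjoinRoot (Polynomial.X ^ m - Polynomial.C g)))) →
      Built k₀ N Y (aff k (Sol (tot f) g))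
  | small (X : Sch k) : FT True X → topologicalKrullDim X.left ≤ N → Built k₀ N Y X
  | constant (X : Sch k) : Constant k₀ X → Built k₀ N Y X
  | given (X : Sch k) : Y X → Built k₀ N Y X
  | iso (X X' : Sch k) : FT True X → Nonempty (X ≅ X') → Built k₀ N Y X → Built k₀ N Y X'
  | total {Z X U : Sch k} (i : Z ⟶ X) (j : U ⟶ X) : FT True X → IsTriple i j →
      Built k₀ N Y Z → Built k₀ N Y U → Built k₀ N Y X
  | opened {Z X U : Sch k} (i : Z ⟶ X) (j : U ⟶ X) : FT True X → IsTriple i j →
      Built k₀ N Y Z → Built k₀ N Y X → Built k₀ N Y U
  | closed {Z X U : Sch k} (i : Z ⟶ X) (j : U ⟶ X) : FT True X → IsTriple i j →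
      Built k₀ N Y X → Built k₀ N Y U → Built k₀ N Y Z
  | product (A B : Type) [CommRing A] [CommRing B] [Algebra k A] [Algebra k B]
      [Algebra.FiniteType k A] [Algebra.FiniteType k B] : Built k₀ N Y (aff k A) →
      Built k₀ N Y (aff k B) → Built k₀ N Y (aff k (TensorProduct k A B))
  | covering (A B : Type) [CommRing A] [CommRing B] [Algebra k A] [Algebra k B] [Algebra A B]
      [IsScalarTower k A B] [Algebra.FiniteType k A] (d : ℕ) :
      Nonempty (Module.Basis (Fin (d + 1)) A B) → Built k₀ N Y (aff k B) →
      Built k₀ N Y (aff k A)

/-- A known fact: let `Y` be a class of smooth proper schemes which contains all those of dimension at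
most `N` and all those defined over the perfect subfield `k₀`. If the motive of a smooth proper scheme
`X` is in the thick tensor triangulated subcategory generated by the motives with compact support of
the schemes of dimension at most `N`, of the schemes defined over `k₀` and of the schemes in `Y`, then
it is a direct factor of a sum of Tate twists of products of motives of schemes in `Y` (alterations of
de Jong over `k` and over `k₀`, and the weight structure of Bondarko). -/
def ConstantFacts (k₀ : Type) {k : Type} [Field k₀] [Field k] [Algebra k₀ k] {C : Type u}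
    [Category.{v} C] [MonoidalCategory C] [SymmetricCategory C] [Preadditive C] [Linear ℚ C]
    [Limits.HasZeroObject C] [HasShift C ℤ] [∀ n : ℤ, (shiftFunctor C n).Additive]
    [Pretriangulated C] (D : Motives k C) : Prop :=
  ∀ (N : ℕ) (Y : Sch k → Prop), (∀ X, Y X → SmoothProper X) →
    (∀ X, SmoothProper X → topologicalKrullDim X.left ≤ N → Y X) →
    (∀ X, SmoothProper X → Constant k₀ X → Y X) →
    ∀ X, SmoothProper X → Thick D (Generators D N fun X => Y X ∨ Constant k₀ X) (D.M X) →
      Pure D Y (D.M X)

end Pool.Agent.U672.SF
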