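import Pool.Agent.U672.AB.Defs
import Pool.Agent.U672.MW.SysDefs
import Pool.Agent.U672.ST.Main

/-!
# Motives of systems of equations, smooth proper schemes and their cohomology
-/

set_option autoImplicit false

open CategoryTheory MonoidalCategory AlgebraicGeometry MvPolynomial Pool.Agent.TH137.DG
  Pool.Agent.Y116.UV Pool.Agent.Z125.UN Pool.Agent.U672.ST Pool.Agent.U672.AB Pool.Agent.U672.MW

namespace Pool.Agent.U672.SF

universe v u w

/-- `X` is a smooth proper scheme over `k`. -/
def SmoothProper {k : Type} [Field k] (X : Sch k) : Prop :=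
  FT True X ∧ Smooth X.hom ∧ IsProper X.hom

/-- The smallest class of separated schemes of finite type over `k` which contains the systems of excess at
most `N + 1` with further equations with independent exponents, the schemes `∑ f_j (x_j) = g (y)` over
schemes of dimension at most `N`, all schemes of dimension at most `N` and the schemes in the
class `Y`, which contains with two of the schemes `X`, `Z` (a closed subscheme of `X`), `U` (its complement)
also the third, with two affine schemes their product, and with `Spec B` also `Spec A` if the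
`A`-algebra `B` is free of finite positive rank. -/
inductive Constructed {k : Type} [Field k] (N : ℕ) (Y : Sch k → Prop) : Sch k → Prop
  | system (σ : Type) [Finite σ] (q r : ℕ) (G : Fin q → MvPolynomial σ k)
      (H : Fin r → MvPolynomial σ k) : excessOf G ≤ N + 1 → Independent G H →
      Constructed N Y (zeros (Sum.elim G H))
  | sum (n : ℕ) (σ : Fin n → Type) [∀ j, Finite (σ j)] (f : ∀ j, MvPolynomial (σ j) k) (A : Type)
      [CommRing A] [Algebra k A] [Algebra.FiniteType k A] (g : A) : (∀ j, Elem N (f j)) →
      ringKrullDim A ≤ N → Constructed N Y (aff k (Sol (tot f) g))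
  | small (X : Sch k) : FT True X → topologicalKrullDim X.left ≤ N → Constructed N Y X
  | given (X : Sch k) : Y X → Constructed N Y X
  | iso (X X' : Sch k) : FT True X → Nonempty (X ≅ X') → Constructed N Y X → Constructed N Y X'
  | total {Z X U : Sch k} (i : Z ⟶ X) (j : U ⟶ X) : FT True X → IsTriple i j →
      Constructed N Y Z → Constructed N Y U → Constructed N Y X
  | opened {Z X U : Sch k} (i : Z ⟶ X) (j : U ⟶ X) : FT True X → IsTriple i j →
      Constructed N Y Z → Constructed N Y X → Constructed N Y U
  | closed {Z X U : Sch k} (i : Z ⟶ X) (j : U ⟶ X) : FT True X → IsTriple i j →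
      Constructed N Y X → Constructed N Y U → Constructed N Y Z
  | product (A B : Type) [CommRing A] [CommRing B] [Algebra k A] [Algebra k B]
      [Algebra.FiniteType k A] [Algebra.FiniteType k B] : Constructed N Y (aff k A) →
      Constructed N Y (aff k B) → Constructed N Y (aff k (TensorProduct k A B))
  | covering (A B : Type) [CommRing A] [CommRing B] [Algebra k A] [Algebra k B] [Algebra A B]
      [IsScalarTower k A B] [Algebra.FiniteType k A] (d : ℕ) :
      Nonempty (Module.Basis (Fin (d + 1)) A B) → Constructed N Y (aff k B) →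
      Constructed N Y (aff k A)

variable {k : Type} [Field k] {C : Type u} [Category.{v} C] [MonoidalCategory C]
  [SymmetricCategory C] [Preadditive C] [Linear ℚ C] [Limits.HasZeroObject C] [HasShift C ℤ]
  [∀ n : ℤ, (shiftFunctor C n).Additive] [Pretriangulated C]

/-- The motives with compact support of the schemes of dimension at most `N`, and of the schemes in the
class `Y`. -/
def Generators (D : Motives k C) (N : ℕ) (Y : Sch k → Prop) (A : C) : Prop :=
  ∃ X : Sch k, (FT True X ∧ topologicalKrullDim X.left ≤ N ∨ Y X) ∧ A = D.Mc X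

/-- The smallest class of objects which contains the motives of the schemes in the class `Y`, the direct
factors of the sum of two members, the tensor products of two members, and with one of the objects `A`
and `L ⊗ A` also the other. If the schemes in `Y` are smooth and proper, then these are Chow motives. -/
inductive Pure (D : Motives k C) (Y : Sch k → Prop) : C → Prop
  | gen (X : Sch k) : Y X → Pure D Y (D.M X)
  | factor (A B S : C) (i₁ : A ⟶ S) (i₂ : B ⟶ S) (p₁ : S ⟶ A) (p₂ : S ⟶ B) :
      p₁ ≫ i₁ + p₂ ≫ i₂ = 𝟙 S → Pure D Y A → Pure D Y B → Pure D Y S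
  | tensor (A B : C) : Pure D Y A → Pure D Y B → Pure D Y (A ⊗ B)
  | twist (A : C) : Pure D Y A → Pure D Y (D.L ⊗ A)
  | untwist (A : C) : Pure D Y (D.L ⊗ A) → Pure D Y A

/-- Standard properties of the triangulated category of geometric motives with rational coefficients over a
perfect field `k`, and of the motives `M X` and the motives with compact support `Mc X` of the
separated schemes of finite type over `k`.

* `iso`: isomorphic schemes have isomorphic motives with compact support;
* `localization`: the triangle `Mc Z → Mc X → Mc U → Mc Z[1]` for a closed subscheme `Z` of `X` and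
  its complement `U` (Voevodsky, Kelly);
* `bundle`: for the affine bundle `Spec A[w_1, …, w_m] / (∑ f_l w_l - 1) → U` with fibre `𝔸^(m-1)`,
  where `U` is the complement of `f = 0` in `Spec A`, the motive with compact support of the total
  space is the one of `U` twisted by `(m-1)[2m-2]`;
* `torus`: `Mc X (1)[2]` is a direct factor of `Mc (X × 𝔾_m)`;
* `kuenneth`: `Mc (X × Y) = Mc X ⊗ Mc Y` (Voevodsky, Kelly);
* `transfer`: if `B` is a free `A`-module of finite rank `d + 1`, then `Mc (Spec A)` is a direct summand
  of `Mc (Spec B)`;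
* `proper`: `M X = Mc X` for proper `X`;
* `cancel`: the cancellation theorem, the Tate twist is full (Voevodsky);
* `chow`: let `Y` be a class of smooth proper schemes which contains all those of dimension at most `N`.
  If the motive of a smooth proper scheme `X` is in the thick tensor triangulated subcategory
  generated by the motives with compact support of the schemes of dimension at most `N` and the motives of
  the schemes in `Y`, then it is a direct factor of a sum of Tate twists of products of motives of
  schemes in `Y` (alterations of de Jong, and the weight structure of Bondarko whose heart are the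
  Chow motives). -/
structure MotiveFacts (D : Motives k C) : Prop where
  iso : ∀ {X Y : Sch k}, FT True X → Nonempty (X ≅ Y) → Nonempty (D.Mc X ≅ D.Mc Y)
  localization : ∀ {Z X U : Sch k} (i : Z ⟶ X) (j : U ⟶ X), FT True X → IsTriple i j →
    ∃ (a : D.Mc Z ⟶ D.Mc X) (b : D.Mc X ⟶ D.Mc U) (d : D.Mc U ⟶ (D.Mc Z)⟦(1 : ℤ)⟧),
      Pretriangulated.Triangle.mk a b d ∈ Pretriangulated.distinguishedTriangles (C := C)
  bundle : ∀ (A : Type) [CommRing A] [Algebra k A] [Algebra.FiniteType k A] (m : ℕ)
    (f : Fin m → A) (U : Sch k) (j : U ⟶ aff k A), IsOpenImmersion j.left →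
    Set.range j.left = {x : PrimeSpectrum A | ∃ l, f l ∉ x.asIdeal} →
    Nonempty (D.Mc (aff k (Jou f)) ≅ tw D.L (m - 1) (D.Mc U))
  torus : ∀ (A : Type) [CommRing A] [Algebra k A] [Algebra.FiniteType k A],
    ∃ (s : D.L ⊗ D.Mc (aff k A) ⟶ D.Mc (aff k (LaurentPolynomial A)))
      (r : D.Mc (aff k (LaurentPolynomial A)) ⟶ D.L ⊗ D.Mc (aff k A)), s ≫ r = 𝟙 _
  kuenneth : ∀ (A B : Type) [CommRing A] [CommRing B] [Algebra k A] [Algebra k B]
    [Algebra.FiniteType k A] [Algebra.FiniteType k B],
    Nonempty (D.Mc (aff k (TensorProduct k A B)) ≅ D.Mc (aff k A) ⊗ D.Mc (aff k B))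
  transfer : ∀ (A B : Type) [CommRing A] [CommRing B] [Algebra k A] [Algebra k B] [Algebra A B]
    [IsScalarTower k A B] [Algebra.FiniteType k A] (d : ℕ),
    Nonempty (Module.Basis (Fin (d + 1)) A B) →
      ∃ (s : D.Mc (aff k A) ⟶ D.Mc (aff k B)) (r : D.Mc (aff k B) ⟶ D.Mc (aff k A)), s ≫ r = 𝟙 _
  proper : ∀ X : Sch k, FT True X → IsProper X.hom → Nonempty (D.M X ≅ D.Mc X)
  cancel : ∀ (A B : C) (f : D.L ⊗ A ⟶ D.L ⊗ B), ∃ g : A ⟶ B, D.L ◁ g = f
  chow : ∀ (N : ℕ) (Y : Sch k → Prop), (∀ X, Y X → SmoothProper X) →
    (∀ X, SmoothProper X → topologicalKrullDim X.left ≤ N → Y X) →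
    ∀ X, SmoothProper X → Thick D (Generators D N Y) (D.M X) → Pure D Y (D.M X)

/-- A realization of the category of motives given by a Weil cohomology theory with coefficients in `F`:
for a smooth proper scheme `X` the space `H n (M X)` is dual to `H^n (X)`. The functors `H n` are
additive and vanish on a given object for almost all `n`; there is a Künneth formula; and the Tate twist
`L ⊗ A = A (1)[2]` shifts the degree by two. -/
structure Realization (D : Motives k C) (F : Type) [Field F] where
  H : ℤ → C ⥤ ModuleCat.{w} F
  additive : ∀ n, (H n).Additive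
  bounded : ∀ A : C, ∃ b : ℕ, ∀ n : ℤ, b < n.natAbs → ∀ x : (H n).obj A, x = 0
  mul : ∀ (A B : C) (i j n : ℤ), i + j = n →
    ((H i).obj A →ₗ[F] (H j).obj B →ₗ[F] (H n).obj (A ⊗ B))
  mul_map : ∀ {A A' B B' : C} (f : A ⟶ A') (g : B ⟶ B') (i j n : ℤ) (h : i + j = n)
    (a : (H i).obj A) (b : (H j).obj B), ((H n).map (f ⊗ₘ g)).hom (mul A B i j n h a b) =
      mul A' B' i j n h (((H i).map f).hom a) (((H j).map g).hom b)
  mul_span : ∀ (A B : C) (n : ℤ), Submodule.span F {z : (H n).obj (A ⊗ B) |
    ∃ (i j : ℤ) (h : i + j = n) (a : (H i).obj A) (b : (H j).obj B), mul A B i j n h a b = z} = ⊤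
  tate : ∀ n : ℤ, Nonempty (tensorLeft D.L ⋙ H n ≅ H (n - 2))

variable {D : Motives k C} {F : Type} [Field F]

/-- For the motive `A` of a smooth proper scheme `X`, this is `C⁺(X)`: the even Künneth projector is
algebraic. (The endomorphisms of `M X` are the algebraic correspondences from `X` to `X`.) -/
def CPlus (S : Realization.{v, u, w} D F) (A : C) : Prop :=
  ∃ p : A ⟶ A, ∀ n : ℤ, (Even n → (S.H n).map p = 𝟙 _) ∧ (Odd n → (S.H n).map p = 0)

/-- For the motive `A` of a smooth proper scheme `X`, this is the standard conjecture of Künneth type for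
`X`: all Künneth projectors are algebraic. -/
def AllProjectors (S : Realization.{v, u, w} D F) (A : C) : Prop :=
  ∀ i : ℤ, ∃ p : A ⟶ A, ∀ n : ℤ, (n = i → (S.H n).map p = 𝟙 _) ∧ (n ≠ i → (S.H n).map p = 0)

end Pool.Agent.U672.SF
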